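import Pool.Agent.R776.TP.Regular

set_option autoImplicit false

/-! # Edge-disjoint copies of a tree in regular graphs -/

namespace Pool.Agent.Results.MP_c367c1_co.RegularCover

/-- Let `T` be a tree with `m ≥ 1` edges and `G` a finite `D`-regular graph with `D ≥ m`. Then `G`
has pairwise edge-disjoint copies of `T` which cover at least the fraction `(D - m + 1) / D` of its
edges. For `D = 2 m` (part (i) of the conjecture) this is more than half of the edges. -/
theorem result :
    ∀ (W : Type) [Fintype W] (T : SimpleGraph W), T.IsTree → 1 ≤ T.edgeSet.ncard →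
      ∀ (V : Type) [Fintype V] (G : SimpleGraph V) [DecidableRel G.Adj] (D : ℕ),
        G.IsRegularOfDegree D → T.edgeSet.ncard ≤ D →
        ∃ (q : ℕ) (f : Fin q → (T →g G)),
          (∀ i, Function.Injective (f i)) ∧
          (∀ i j, i ≠ j → ∀ e ∈ T.edgeSet, ∀ e' ∈ T.edgeSet,
            Sym2.map (f i) e ≠ Sym2.map (f j) e') ∧
          (D - T.edgeSet.ncard + 1) * G.edgeSet.ncard ≤ D * (q * T.edgeSet.ncard) := by
  intro W _ T hT hm V _ G _ D hG hD
  have hE := R776.TP.regular_edges G _ hG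
  obtain ⟨q, f, f1, f2, f3⟩ := R776.TP.regular_cover T hT G _ hG hm hD
  refine ⟨q, f, f1, f2, ?_⟩
  rw [Nat.card_eq_fintype_card] at hE
  obtain ⟨m, hm'⟩ : ∃ m, m = T.edgeSet.ncard := ⟨_, rfl⟩
  rw [← hm'] at f3 hD ⊢
  have e1 : D + 1 - m = D - m + 1 := by omega
  rw [e1] at f3
  have h2 : 2 * ((D - m + 1) * G.edgeSet.ncard) ≤ 2 * (D * (q * m)) := by
    calc 2 * ((D - m + 1) * G.edgeSet.ncard) = (D - m + 1) * (2 * G.edgeSet.ncard) := by ring
      _ = D * ((D - m + 1) * Fintype.card V) := by rw [hE]; ring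
      _ ≤ D * (2 * m * q) := Nat.mul_le_mul_left _ f3
      _ = 2 * (D * (q * m)) := by ring
  omega

end Pool.Agent.Results.MP_c367c1_co.RegularCover
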